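import Pool.Agent.T9h19.BP.Basic

/-!
# A strict scheme with 30 elements and tables of 10, 9, 9 bits

`30² = 900 > 810 = 10 · 9 · 9`.

Author: helper19.
-/

set_option autoImplicit false

namespace Pool.Agent.T9h19.BP

/-- positions in the first table -/
def al : Fin 30 → Fin 10 :=
  ![0, 0, 0, 1, 1, 1, 2, 2, 2, 3, 3, 3, 4, 4, 4, 5, 5, 5, 6, 6, 6, 7, 7, 7, 8, 8, 8, 9, 9, 9]

/-- positions in the second table -/
def be : Fin 30 → Fin 9 :=
  ![0, 6, 8, 3, 5, 8, 1, 2, 5, 3, 4, 7, 2, 4, 6, 3, 4, 7, 3, 5, 8, 1, 2, 5, 0, 6, 8, 0, 1, 7]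

/-- positions in the third table -/
def ga : Fin 30 → Fin 9 :=
  ![7, 4, 8, 4, 2, 6, 4, 7, 8, 1, 3, 6, 5, 8, 1, 5, 2, 0, 7, 0, 3, 3, 6, 1, 0, 2, 5, 1, 5, 8]

/-- the classes at a position of the second table, as a bit mask -/
def nb : Fin 9 → ℕ := ![769, 644, 148, 106, 56, 198, 273, 552, 323]

/-- the classes at a position of the third table, as a bit mask -/
def nc : Fin 9 → ℕ := ![352, 664, 290, 200, 7, 816, 138, 69, 533]

theorem nb_mem : ∀ z, (nb (be z)).testBit (al z) = true := by decide

theorem nc_mem : ∀ z, (nc (ga z)).testBit (al z) = true := by decide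

set_option maxRecDepth 100000 in
theorem base_inj : ∀ x y, al x = al y → (be x = be y ∨ ga x = ga y) → x = y := by decide +kernel

set_option maxRecDepth 100000 in
theorem base_str : ∀ x y, al x ≠ al y →
    (((nb (be x)).testBit (al y) = false ∧ (nb (be y)).testBit (al x) = false) ∨
      ((nc (ga x)).testBit (al y) = false ∧ (nc (ga y)).testBit (al x) = false)) ∨
      (nb (be x) &&& nc (ga y) = 0 ∨ nb (be y) &&& nc (ga x) = 0) := by decide +kernel

theorem far_of {x y : Fin 30} (h : nb (be x) &&& nc (ga y) = 0) : Far al be ga x y := by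
  rintro z w hzw ⟨h1, h2⟩
  have h3 := nb_mem z
  have h4 := nc_mem w
  rw [h1] at h3
  rw [h2, ← hzw] at h4
  have h5 : (nb (be x) &&& nc (ga y)).testBit (al z) = true := by
    rw [Nat.testBit_and, h3, h4]; rfl
  rw [h, Nat.zero_testBit] at h5
  exact absurd h5 (by decide)

theorem base : Strict al be ga where
  injB x y h1 h2 := base_inj x y h1 (Or.inl h2)
  injC x y h1 h2 := base_inj x y h1 (Or.inr h2)
  str x y hxy := by
    rcases base_str x y hxy with (h | h) | (h | h)
    · left
      refine ⟨fun z hz hb => ?_, fun z hz hb => ?_⟩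
      · have h3 := nb_mem z
        rw [hb, hz, h.1] at h3
        exact absurd h3 (by decide)
      · have h3 := nb_mem z
        rw [hb, hz, h.2] at h3
        exact absurd h3 (by decide)
    · right; left
      refine ⟨fun z hz hb => ?_, fun z hz hb => ?_⟩
      · have h3 := nc_mem z
        rw [hb, hz, h.1] at h3
        exact absurd h3 (by decide)
      · have h3 := nc_mem z
        rw [hb, hz, h.2] at h3
        exact absurd h3 (by decide)
    · right; right; left
      exact far_of h
    · right; right; right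
      exact far_of h

/-- the balanced product with a grid -/
theorem balanced : Strict (fun x : Fin 30 × (Fin 9 × Fin 9 × Fin 10) => (al x.1, (x.2.1, x.2.2.1)))
    (fun x => (be x.1, (x.2.2.1, x.2.2.2))) (fun x => (ga x.1, (x.2.1, x.2.2.2))) :=
  base.prod (grid (Fin 9) (Fin 9) (Fin 10))

/-- a correct scheme with `3 · 810^n` bits for `m ≤ 24300^n` -/
theorem exists_scheme (n m : ℕ) (hm : m ≤ 24300 ^ n) :
    ∃ σ : Scheme m (810 ^ n) (810 ^ n) (810 ^ n), σ.Correct 2 := by
  refine (balanced.pow (Fin n)).realize (m := m) ?_ ?_ ?_ ?_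
  · refine hm.trans (le_of_eq ?_)
    simp only [Fintype.card_fun, Fintype.card_prod, Fintype.card_fin]
  · simp only [Fintype.card_fun, Fintype.card_prod, Fintype.card_fin]
  · simp only [Fintype.card_fun, Fintype.card_prod, Fintype.card_fin]
  · simp only [Fintype.card_fun, Fintype.card_prod, Fintype.card_fin]

end Pool.Agent.T9h19.BP
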