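import Mathlib

/-!
# Adaptive two-probe schemes (MP_b7335c_lc)

Definitions, and strict schemes: a strengthening of correctness for sets of at most two elements which
is preserved by products and powers.

Author: helper19.
-/

set_option autoImplicit false

namespace Pool.Agent.T9h19.BP

/-- An adaptive two-probe scheme for the universe `Fin m` with tables of `a`, `b`, `c` bits: the
positions of the elements in the three tables. -/
structure Scheme (m a b c : ℕ) where
  /-- position in the first table -/
  posA : Fin m → Fin a
  /-- position in the table read if the first bit is `0` -/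
  posB : Fin m → Fin b
  /-- position in the table read if the first bit is `1` -/
  posC : Fin m → Fin c

/-- The answer to the query `x` when the tables are filled with `tA`, `tB`, `tC`: read the bit of
the first table; if it is `0` (`false`) the answer is the bit of the second table, otherwise the bit
of the third. -/
def Scheme.answer {m a b c : ℕ} (σ : Scheme m a b c) (tA : Fin a → Bool) (tB : Fin b → Bool)
    (tC : Fin c → Bool) (x : Fin m) : Bool :=
  if tA (σ.posA x) = false then tB (σ.posB x) else tC (σ.posC x)

/-- The scheme is correct for the subsets with at most `n` elements: every such subset `S` has a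
filling of the tables with which every query is answered correctly. -/
def Scheme.Correct {m a b c : ℕ} (σ : Scheme m a b c) (n : ℕ) : Prop :=
  ∀ S : Finset (Fin m), S.card ≤ n → ∃ (tA : Fin a → Bool) (tB : Fin b → Bool) (tC : Fin c → Bool),
    ∀ x, σ.answer tA tB tC x = true ↔ x ∈ S

/-- `s_A(n, m, 2)`: the least number of bits of a correct scheme. -/
noncomputable def space (n m : ℕ) : ℕ :=
  sInf {s | ∃ a b c : ℕ, a + b + c = s ∧ ∃ σ : Scheme m a b c, σ.Correct n}

/-! ### strict schemes -/

section

variable {U A B C : Type*}

/-- `y`'s class does not meet the position of `x`, and conversely -/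
def Sep (α : U → A) (β : U → B) (x y : U) : Prop :=
  (∀ z, α z = α y → β z ≠ β x) ∧ ∀ z, α z = α x → β z ≠ β y

/-- no class meets both the `β`-position of `x` and the `γ`-position of `y` -/
def Far (α : U → A) (β : U → B) (γ : U → C) (x y : U) : Prop :=
  ∀ z w, α z = α w → ¬ (β z = β x ∧ γ w = γ y)

/-- strict schemes -/
structure Strict (α : U → A) (β : U → B) (γ : U → C) : Prop where
  injB : ∀ x y, α x = α y → β x = β y → x = y
  injC : ∀ x y, α x = α y → γ x = γ y → x = y
  str : ∀ x y, α x ≠ α y → Sep α β x y ∨ Sep α γ x y ∨ Far α β γ x y ∨ Far α β γ y x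

open Classical in
theorem Strict.pair {α : U → A} {β : U → B} {γ : U → C} (h : Strict α β γ) (x y : U) :
    ∃ (tA : A → Bool) (tB : B → Bool) (tC : C → Bool), ∀ z,
      (if tA (α z) = false then tB (β z) else tC (γ z)) = true ↔ (z = x ∨ z = y) := by
  -- the mixed case
  have far : ∀ x y, α x ≠ α y → Far α β γ x y →
      ∃ (tA : A → Bool) (tB : B → Bool) (tC : C → Bool), ∀ z,
      (if tA (α z) = false then tB (β z) else tC (γ z)) = true ↔ (z = x ∨ z = y) := by
    intro x y hxy hf
    refine ⟨fun k => decide ¬ (k = α x ∨ (k ≠ α y ∧ ∃ w, α w = k ∧ γ w = γ y)),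
      fun b => decide (b = β x), fun c => decide (c = γ y), fun z => ?_⟩
    by_cases h1 : α z = α x
    · rw [if_pos (by simp [h1])]
      rw [decide_eq_true_iff]
      constructor
      · intro h2; left; exact h.injB z x h1 h2
      · rintro (h2 | h2)
        · rw [h2]
        · exfalso; apply hxy; rw [← h1, h2]
    · by_cases h2 : α z = α y
      · rw [if_neg (by simp [h2, Ne.symm hxy])]
        rw [decide_eq_true_iff]
        constructor
        · intro h3; right; exact h.injC z y h2 h3
        · rintro (h3 | h3)
          · exfalso; apply h1; rw [h3]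
          · rw [h3]
      · by_cases h3 : ∃ w, α w = α z ∧ γ w = γ y
        · rw [if_pos (by simp [h1, h2, h3])]
          rw [decide_eq_true_iff]
          obtain ⟨w, hw1, hw2⟩ := h3
          constructor
          · intro h4; exact absurd ⟨h4, hw2⟩ (hf z w hw1.symm)
          · rintro (h4 | h4)
            · exfalso; apply h1; rw [h4]
            · exfalso; apply h2; rw [h4]
        · rw [if_neg (by simp only [h1, h3]; simp)]
          rw [decide_eq_true_iff]
          constructor
          · intro h4; exact absurd ⟨z, rfl, h4⟩ h3
          · rintro (h4 | h4)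
            · exfalso; apply h1; rw [h4]
            · exfalso; apply h2; rw [h4]
  by_cases hxy : α x = α y
  · refine ⟨fun k => decide (k ≠ α x), fun b => decide (b = β x ∨ b = β y), fun _ => false,
      fun z => ?_⟩
    by_cases h1 : α z = α x
    · rw [if_pos (by simp [h1]), decide_eq_true_iff]
      constructor
      · rintro (h2 | h2)
        · left; exact h.injB z x h1 h2
        · right; exact h.injB z y (h1.trans hxy) h2
      · rintro (h2 | h2)
        · left; rw [h2]
        · right; rw [h2]
    · rw [if_neg (by simp [h1])]
      constructor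
      · intro h2; exact absurd h2 (by simp)
      · rintro (h2 | h2)
        · exfalso; apply h1; rw [h2]
        · exfalso; apply h1; rw [h2, hxy]
  · rcases h.str x y hxy with hs | hs | hs | hs
    · refine ⟨fun k => decide (¬ (k = α x ∨ k = α y)), fun b => decide (b = β x ∨ b = β y),
        fun _ => false, fun z => ?_⟩
      by_cases h1 : α z = α x ∨ α z = α y
      · rw [if_pos (by simp only [decide_eq_false_iff_not, not_not]; exact h1), decide_eq_true_iff]
        constructor
        · rintro (h2 | h2)
          · rcases h1 with h1 | h1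
            · left; exact h.injB z x h1 h2
            · exact absurd h2 (hs.1 z h1)
          · rcases h1 with h1 | h1
            · exact absurd h2 (hs.2 z h1)
            · right; exact h.injB z y h1 h2
        · rintro (h2 | h2)
          · left; rw [h2]
          · right; rw [h2]
      · rw [if_neg (by simp only [decide_eq_false_iff_not, not_not]; exact h1)]
        constructor
        · intro h2; exact absurd h2 (by simp)
        · rintro (h2 | h2)
          · exfalso; apply h1; left; rw [h2]
          · exfalso; apply h1; right; rw [h2]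
    · refine ⟨fun k => decide (k = α x ∨ k = α y), fun _ => false,
        fun c => decide (c = γ x ∨ c = γ y), fun z => ?_⟩
      by_cases h1 : α z = α x ∨ α z = α y
      · rw [if_neg (by simp only [decide_eq_false_iff_not, not_not]; exact h1), decide_eq_true_iff]
        constructor
        · rintro (h2 | h2)
          · rcases h1 with h1 | h1
            · left; exact h.injC z x h1 h2
            · exact absurd h2 (hs.1 z h1)
          · rcases h1 with h1 | h1
            · exact absurd h2 (hs.2 z h1)
            · right; exact h.injC z y h1 h2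
        · rintro (h2 | h2)
          · left; rw [h2]
          · right; rw [h2]
      · rw [if_pos (by simp only [decide_eq_false_iff_not]; exact h1)]
        constructor
        · intro h2; exact absurd h2 (by simp)
        · rintro (h2 | h2)
          · exfalso; apply h1; left; rw [h2]
          · exfalso; apply h1; right; rw [h2]
    · exact far x y hxy hs
    · obtain ⟨tA, tB, tC, ht⟩ := far y x (Ne.symm hxy) hs
      exact ⟨tA, tB, tC, fun z => by rw [ht z, or_comm]⟩

/-- strict schemes are inherited by subsets of the universe -/
theorem Strict.comp {V : Type*} {α : U → A} {β : U → B} {γ : U → C} (h : Strict α β γ) {f : V → U}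
    (hf : Function.Injective f) : Strict (α ∘ f) (β ∘ f) (γ ∘ f) where
  injB x y h1 h2 := hf (h.injB _ _ h1 h2)
  injC x y h1 h2 := hf (h.injC _ _ h1 h2)
  str x y hxy := by
    rcases h.str (f x) (f y) hxy with hs | hs | hs | hs
    · left; exact ⟨fun z hz => hs.1 (f z) hz, fun z hz => hs.2 (f z) hz⟩
    · right; left; exact ⟨fun z hz => hs.1 (f z) hz, fun z hz => hs.2 (f z) hz⟩
    · right; right; left; exact fun z w hzw => hs (f z) (f w) hzw
    · right; right; right; exact fun z w hzw => hs (f z) (f w) hzw

/-- powers -/
theorem Strict.pow {α : U → A} {β : U → B} {γ : U → C} (h : Strict α β γ) (ι : Type*) :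
    Strict (fun (x : ι → U) t => α (x t)) (fun x t => β (x t)) (fun x t => γ (x t)) where
  injB x y h1 h2 := funext fun t => h.injB _ _ (congrFun h1 t) (congrFun h2 t)
  injC x y h1 h2 := funext fun t => h.injC _ _ (congrFun h1 t) (congrFun h2 t)
  str x y hxy := by
    obtain ⟨t, ht⟩ := Function.ne_iff.mp hxy
    rcases h.str (x t) (y t) ht with hs | hs | hs | hs
    · left
      exact ⟨fun z hz hb => hs.1 (z t) (congrFun hz t) (congrFun hb t),
        fun z hz hb => hs.2 (z t) (congrFun hz t) (congrFun hb t)⟩
    · right; left
      exact ⟨fun z hz hb => hs.1 (z t) (congrFun hz t) (congrFun hb t),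
        fun z hz hb => hs.2 (z t) (congrFun hz t) (congrFun hb t)⟩
    · right; right; left
      exact fun z w hzw hb => hs (z t) (w t) (congrFun hzw t) ⟨congrFun hb.1 t, congrFun hb.2 t⟩
    · right; right; right
      exact fun z w hzw hb => hs (z t) (w t) (congrFun hzw t) ⟨congrFun hb.1 t, congrFun hb.2 t⟩

/-- products -/
theorem Strict.prod {α : U → A} {β : U → B} {γ : U → C} (h : Strict α β γ)
    {U' A' B' C' : Type*} {α' : U' → A'} {β' : U' → B'} {γ' : U' → C'} (h' : Strict α' β' γ') :
    Strict (fun x : U × U' => (α x.1, α' x.2)) (fun x => (β x.1, β' x.2))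
      (fun x => (γ x.1, γ' x.2)) where
  injB x y h1 h2 := by
    rw [Prod.mk.injEq] at h1 h2
    exact Prod.ext (h.injB _ _ h1.1 h2.1) (h'.injB _ _ h1.2 h2.2)
  injC x y h1 h2 := by
    rw [Prod.mk.injEq] at h1 h2
    exact Prod.ext (h.injC _ _ h1.1 h2.1) (h'.injC _ _ h1.2 h2.2)
  str x y hxy := by
    have hor : α x.1 ≠ α y.1 ∨ α' x.2 ≠ α' y.2 := by
      by_contra hcon
      push Not at hcon
      exact hxy (Prod.ext hcon.1 hcon.2)
    rcases hor with ht | ht
    · rcases h.str x.1 y.1 ht with hs | hs | hs | hs
      · left
        exact ⟨fun z hz hb => hs.1 z.1 (congrArg Prod.fst hz) (congrArg Prod.fst hb),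
          fun z hz hb => hs.2 z.1 (congrArg Prod.fst hz) (congrArg Prod.fst hb)⟩
      · right; left
        exact ⟨fun z hz hb => hs.1 z.1 (congrArg Prod.fst hz) (congrArg Prod.fst hb),
          fun z hz hb => hs.2 z.1 (congrArg Prod.fst hz) (congrArg Prod.fst hb)⟩
      · right; right; left
        exact fun z w hzw hb => hs z.1 w.1 (congrArg Prod.fst hzw)
          ⟨congrArg Prod.fst hb.1, congrArg Prod.fst hb.2⟩
      · right; right; right
        exact fun z w hzw hb => hs z.1 w.1 (congrArg Prod.fst hzw)
          ⟨congrArg Prod.fst hb.1, congrArg Prod.fst hb.2⟩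
    · rcases h'.str x.2 y.2 ht with hs | hs | hs | hs
      · left
        exact ⟨fun z hz hb => hs.1 z.2 (congrArg Prod.snd hz) (congrArg Prod.snd hb),
          fun z hz hb => hs.2 z.2 (congrArg Prod.snd hz) (congrArg Prod.snd hb)⟩
      · right; left
        exact ⟨fun z hz hb => hs.1 z.2 (congrArg Prod.snd hz) (congrArg Prod.snd hb),
          fun z hz hb => hs.2 z.2 (congrArg Prod.snd hz) (congrArg Prod.snd hb)⟩
      · right; right; left
        exact fun z w hzw hb => hs z.2 w.2 (congrArg Prod.snd hzw)
          ⟨congrArg Prod.snd hb.1, congrArg Prod.snd hb.2⟩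
      · right; right; right
        exact fun z w hzw hb => hs z.2 w.2 (congrArg Prod.snd hzw)
          ⟨congrArg Prod.snd hb.1, congrArg Prod.snd hb.2⟩

/-- the grid: the known scheme with `m^(2/3)` bits -/
theorem grid (P Q R : Type*) :
    Strict (fun x : P × Q × R => (x.1, x.2.1)) (fun x => (x.2.1, x.2.2)) (fun x => (x.1, x.2.2)) where
  injB x y h1 h2 := by
    rw [Prod.mk.injEq] at h1 h2
    exact Prod.ext h1.1 (Prod.ext h1.2 h2.2)
  injC x y h1 h2 := by
    rw [Prod.mk.injEq] at h1 h2
    exact Prod.ext h1.1 (Prod.ext h1.2 h2.2)
  str x y hxy := by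
    have hor : x.2.1 ≠ y.2.1 ∨ x.1 ≠ y.1 := by
      by_contra hcon
      push Not at hcon
      exact hxy (Prod.ext hcon.2 hcon.1)
    rcases hor with h | h
    · left
      refine ⟨fun z hz hb => h ?_, fun z hz hb => h ?_⟩
      · rw [Prod.mk.injEq] at hz hb
        exact hb.1.symm.trans hz.2
      · rw [Prod.mk.injEq] at hz hb
        exact hz.2.symm.trans hb.1
    · right; left
      refine ⟨fun z hz hb => h ?_, fun z hz hb => h ?_⟩
      · rw [Prod.mk.injEq] at hz hb
        exact hb.1.symm.trans hz.1
      · rw [Prod.mk.injEq] at hz hb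
        exact hz.1.symm.trans hb.1

/-- a strict scheme on finite types gives a correct scheme for all smaller universes -/
theorem Strict.realize [Fintype U] [Fintype A] [Fintype B] [Fintype C] {α : U → A} {β : U → B}
    {γ : U → C} (h : Strict α β γ) {m a b c : ℕ} (hU : m ≤ Fintype.card U) (hA : Fintype.card A = a)
    (hB : Fintype.card B = b) (hC : Fintype.card C = c) : ∃ σ : Scheme m a b c, σ.Correct 2 := by
  classical
  subst hA; subst hB; subst hC
  let f : Fin m → U := fun x => (Fintype.equivFin U).symm (Fin.castLE hU x)
  have hf : Function.Injective f := fun x y hxy =>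
    Fin.castLE_injective hU ((Fintype.equivFin U).symm.injective hxy)
  have hs := h.comp hf
  refine ⟨⟨fun x => Fintype.equivFin A (α (f x)), fun x => Fintype.equivFin B (β (f x)),
    fun x => Fintype.equivFin C (γ (f x))⟩, ?_⟩
  intro S hS
  have key : ∀ x y : Fin m, ∃ (tA : Fin (Fintype.card A) → Bool) (tB : Fin (Fintype.card B) → Bool)
      (tC : Fin (Fintype.card C) → Bool), ∀ z : Fin m,
      (if tA (Fintype.equivFin A (α (f z))) = false then tB (Fintype.equivFin B (β (f z)))
        else tC (Fintype.equivFin C (γ (f z)))) = true ↔ (z = x ∨ z = y) := by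
    intro x y
    obtain ⟨tA, tB, tC, ht⟩ := hs.pair x y
    refine ⟨fun i => tA ((Fintype.equivFin A).symm i), fun i => tB ((Fintype.equivFin B).symm i),
      fun i => tC ((Fintype.equivFin C).symm i), fun z => ?_⟩
    simp only [Equiv.symm_apply_apply]
    exact ht z
  rcases Nat.lt_or_ge S.card 1 with h0 | h0
  · have hS0 : S = ∅ := Finset.card_eq_zero.mp (by omega)
    subst hS0
    exact ⟨fun _ => false, fun _ => false, fun _ => false, fun x => by simp [Scheme.answer]⟩
  · rcases Nat.lt_or_ge S.card 2 with h1 | h1
    · obtain ⟨x, rfl⟩ := Finset.card_eq_one.mp (by omega : S.card = 1)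
      obtain ⟨tA, tB, tC, ht⟩ := key x x
      refine ⟨tA, tB, tC, fun z => ?_⟩
      rw [Finset.mem_singleton]
      exact (ht z).trans (or_self_iff)
    · obtain ⟨x, y, -, rfl⟩ := Finset.card_eq_two.mp (by omega : S.card = 2)
      obtain ⟨tA, tB, tC, ht⟩ := key x y
      refine ⟨tA, tB, tC, fun z => ?_⟩
      rw [Finset.mem_insert, Finset.mem_singleton]
      exact ht z

end

end Pool.Agent.T9h19.BP
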